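import Mathlib
import Pool.Agent.Y633.MM.Rows
import Pool.Agent.Y633.MM.Side

/-! # The choice of the live inputs in each row, for a fraction of the entries -/

open Finset

set_option linter.unusedSectionVars false

namespace Pool.Agent.Y633.MF

open Pool.Agent.Y633.Dep Pool.Agent.Y633.Wire Pool.Agent.Y633.Gen Pool.Agent.Y633.GenK
open Pool.Agent.Y633.MM

theorem exists_rows' {n q m : ℕ} (C : Circuit n q) (D r b n₁ : ℕ) (ρ : Fin m → Fin m → Fin n)
    (hρ : ∀ i j i' j', ρ i j = ρ i' j' → i = i' ∧ j = j') (γ : Fin C.size → ℕ)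
    (hγ : ∀ v, γ v < b) (Lc Sm : Finset (Fin C.size)) (hn₁ : 1 ≤ n₁)
    (hm : 2 * (2 ^ b * n₁) ≤ m) (hr : 128 * (D * C.numWires) ≤ (r + 1) * (m * m))
    (hL : 192 * (D * ∑ v ∈ Lc, C.arity v) ≤ m * m) :
    ∃ (Good : Finset (Fin m)) (P : Fin m → Finset ℕ) (G₀ : Fin m → Finset (Fin m)),
      32 * (D * Goodᶜ.card) ≤ m ∧ (∀ i, P i ⊆ range b ∧ (P i).card ≤ r) ∧
      (∀ i ∈ Good, n₁ ≤ (G₀ i).card) ∧
      ∀ i ∈ Good, ∀ j ∈ G₀ i, inFan C (ρ i j) ≤ r ∧
        (∀ v ∈ Lc, ∀ a, C.src v a ≠ Sum.inl (Sum.inl (ρ i j))) ∧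
        ∀ v ∈ Sm, ∀ a, C.src v a = Sum.inl (Sum.inl (ρ i j)) → γ v ∈ P i := by
  classical
  have hm1 : 1 ≤ m := by
    have : 1 ≤ 2 ^ b * n₁ := Nat.mul_pos (Nat.pos_of_ne_zero (by positivity)) hn₁
    omega
  let Bad1 : Fin m → Finset (Fin m) := fun i => univ.filter fun j => r < inFan C (ρ i j)
  let Bad2 : Fin m → Finset (Fin m) := fun i =>
    univ.filter fun j => ∃ v ∈ Lc, ∃ a, C.src v a = Sum.inl (Sum.inl (ρ i j))
  let Good : Finset (Fin m) := univ.filter fun i => 2 * ((Bad1 i).card + (Bad2 i).card) ≤ m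
  obtain ⟨X1, hX1⟩ : ∃ X1, X1 = ∑ i, (Bad1 i).card := ⟨_, rfl⟩
  obtain ⟨X2, hX2⟩ : ∃ X2, X2 = ∑ i, (Bad2 i).card := ⟨_, rfl⟩
  have hB1 : 128 * (D * X1) ≤ m * m := by
    have h1 : (r + 1) * X1 ≤ C.numWires := by
      calc (r + 1) * X1 = ∑ i, ∑ _j ∈ Bad1 i, (r + 1) := by
            rw [hX1, mul_sum]
            apply sum_congr rfl
            intro i _
            rw [sum_const, smul_eq_mul, mul_comm]
        _ ≤ ∑ i, ∑ j, inFan C (ρ i j) := by
            apply sum_le_sum
            intro i _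
            refine le_trans (sum_le_sum (g := fun j => inFan C (ρ i j)) ?_)
              (sum_le_sum_of_subset (subset_univ _))
            intro j hj
            exact (mem_filter.1 hj).2
        _ ≤ ∑ g, inFan C g := sum_pairs_le ρ hρ _
        _ ≤ C.numWires := sum_inFan_le C
    have h2 : (r + 1) * (128 * (D * X1)) ≤ (r + 1) * (m * m) := by
      calc (r + 1) * (128 * (D * X1)) = 128 * (D * ((r + 1) * X1)) := by ring
        _ ≤ 128 * (D * C.numWires) := by gcongr
        _ ≤ _ := hr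
    exact Nat.le_of_mul_le_mul_left h2 (Nat.succ_pos r)
  have hB2 : 192 * (D * X2) ≤ m * m := by
    refine le_trans (Nat.mul_le_mul_left _ (Nat.mul_le_mul_left _ ?_)) hL
    refine le_trans ?_ (card_read_le C Lc)
    have h2 : X2 = ∑ i, ∑ j, if (∃ v ∈ Lc, ∃ a, C.src v a = Sum.inl (Sum.inl (ρ i j)))
        then 1 else 0 := by
      rw [hX2]
      apply sum_congr rfl
      intro i _
      rw [card_filter]
    rw [h2]
    refine (sum_pairs_le ρ hρ (fun g => if (∃ v ∈ Lc, ∃ a,
      C.src v a = Sum.inl (Sum.inl g)) then 1 else 0)).trans ?_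
    rw [← card_filter]
  have hGood : 32 * (D * Goodᶜ.card) ≤ m := by
    have h1 : m * Goodᶜ.card ≤ 2 * (X1 + X2) := by
      calc m * Goodᶜ.card = ∑ _i ∈ Goodᶜ, m := by rw [sum_const, smul_eq_mul, mul_comm]
        _ ≤ ∑ i ∈ Goodᶜ, 2 * ((Bad1 i).card + (Bad2 i).card) := by
            apply sum_le_sum
            intro i hi
            rw [mem_compl] at hi
            by_contra hcon
            exact hi (mem_filter.2 ⟨mem_univ _, by omega⟩)
        _ ≤ ∑ i, 2 * ((Bad1 i).card + (Bad2 i).card) :=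
            sum_le_sum_of_subset (subset_univ _)
        _ = 2 * (X1 + X2) := by rw [← mul_sum, sum_add_distrib, hX1, hX2]
    have h2 : m * (32 * (D * Goodᶜ.card)) ≤ m * m := by
      calc m * (32 * (D * Goodᶜ.card)) = 32 * (D * (m * Goodᶜ.card)) := by ring
        _ ≤ 32 * (D * (2 * (X1 + X2))) := by gcongr
        _ = 64 * (D * X1) + 64 * (D * X2) := by ring
        _ ≤ m * m := by omega
    exact Nat.le_of_mul_le_mul_left h2 hm1
  have hrow : ∀ i, ∃ (P : Finset ℕ) (G₀ : Finset (Fin m)), (P ⊆ range b ∧ P.card ≤ r) ∧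
      (i ∈ Good → n₁ ≤ G₀.card ∧ ∀ j ∈ G₀, inFan C (ρ i j) ≤ r ∧
        (∀ v ∈ Lc, ∀ a, C.src v a ≠ Sum.inl (Sum.inl (ρ i j))) ∧
        ∀ v ∈ Sm, ∀ a, C.src v a = Sum.inl (Sum.inl (ρ i j)) → γ v ∈ P) := by
    intro i
    by_cases hi : i ∈ Good
    · have hi' := (mem_filter.1 hi).2
      let Elig : Finset (Fin m) := univ.filter fun j => j ∉ Bad1 i ∧ j ∉ Bad2 i
      have hE : m ≤ Elig.card + ((Bad1 i).card + (Bad2 i).card) := by
        have h1 : (univ : Finset (Fin m)) ⊆ Elig ∪ (Bad1 i ∪ Bad2 i) := by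
          intro j _
          rw [mem_union, mem_union]
          by_cases h1 : j ∈ Bad1 i
          · exact Or.inr (Or.inl h1)
          · by_cases h2 : j ∈ Bad2 i
            · exact Or.inr (Or.inr h2)
            · exact Or.inl (mem_filter.2 ⟨mem_univ _, h1, h2⟩)
        have h2 := card_le_card h1
        rw [card_univ, Fintype.card_fin] at h2
        exact h2.trans ((card_union_le _ _).trans (Nat.add_le_add_left (card_union_le _ _) _))
      have hElig : 2 ^ b * n₁ ≤ Elig.card := by omega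
      let code : Fin m → Finset ℕ := fun j =>
        (Sm.filter fun v => ∃ a, C.src v a = Sum.inl (Sum.inl (ρ i j))).image γ
      obtain ⟨Pset, hPs, hfib⟩ := exists_le_card_fiber_of_mul_le_card_of_maps_to
        (s := Elig) (t := (range b).powerset) (f := code) (n := n₁)
        (by
          intro j _
          rw [mem_powerset]
          intro x hx
          simp only [code, mem_image] at hx
          obtain ⟨v, _, rfl⟩ := hx
          exact mem_range.2 (hγ v))
        ⟨∅, by simp⟩ (by rw [card_powerset, card_range]; exact hElig)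
      have hmem : ∀ j ∈ Elig, inFan C (ρ i j) ≤ r := by
        intro j hj
        by_contra hcon
        exact (mem_filter.1 hj).2.1 (mem_filter.2 ⟨mem_univ _, by omega⟩)
      refine ⟨Pset, Elig.filter fun j => code j = Pset, ⟨mem_powerset.1 hPs, ?_⟩,
        fun _ => ⟨hfib, ?_⟩⟩
      · have hne : (Elig.filter fun j => code j = Pset).Nonempty := card_pos.1 (by omega)
        obtain ⟨j, hj⟩ := hne
        obtain ⟨hj1, hj2⟩ := mem_filter.1 hj
        rw [← hj2]
        refine card_image_le.trans (le_trans ?_ (hmem j hj1))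
        apply card_reading_le
        intro v hv
        exact (mem_filter.1 hv).2
      · intro j hj
        obtain ⟨hj1, hj2⟩ := mem_filter.1 hj
        refine ⟨hmem j hj1, ?_, ?_⟩
        · intro v hv a ha
          exact (mem_filter.1 hj1).2.2 (mem_filter.2 ⟨mem_univ _, v, hv, a, ha⟩)
        · intro v hv a ha
          rw [← hj2]
          simp only [code, mem_image]
          exact ⟨v, mem_filter.2 ⟨hv, a, ha⟩, rfl⟩
    · exact ⟨∅, ∅, ⟨by simp, by simp⟩, fun h => absurd h hi⟩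
  choose P G₀ h1 h2 using hrow
  exact ⟨Good, P, G₀, hGood, h1, fun i hi => (h2 i hi).1, fun i hi => (h2 i hi).2⟩

end Pool.Agent.Y633.MF
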