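import Mathlib
import Pool.Agent.Y633.MF.Rows

/-! # One side, for a fraction of the entries -/

open Finset

set_option linter.unusedSectionVars false

namespace Pool.Agent.Y633.MF

open Pool.Agent.Y633.Dep Pool.Agent.Y633.Wire Pool.Agent.Y633.Gen Pool.Agent.Y633.GenK
open Pool.Agent.Y633.Lay Pool.Agent.Y633.MM

theorem side' (D c h r w₂ Q b M₀ B K₁ : ℕ) (hD : 1 ≤ D) (hc : 1 ≤ c) (hr : r = 128 * D * c)
    (hw₂ : 1 ≤ w₂) (hQ : Q = 384 * 8 * D * c) (hb : b = 4 * c * w₂ + 1) (hM₀ : M₀ = 8 * c * w₂ * (Q + 1))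
    (hB : B = 2 ^ b) (hK : K₁ = 1024 * D * B) :
    ∃ Γ₀ m₀ : ℕ, 1 ≤ Γ₀ ∧ ∀ m n q : ℕ, m₀ ≤ m → n ≤ 2 * (m * m) →
      ∀ W₂ W : ℕ, W₂ = m * m / w₂ → W = W₂ / (Q + 1) →
      ∀ C : Circuit n q, C.numWires ≤ c * (m * m) →
      ∀ (E : Finset (Fin C.size)) (time wt : Fin C.size → ℕ) (A : Finset ℕ) (T : ℕ → ℕ)
        (ρ : Fin m → Fin m → Fin n) (sk : Fin m → Fin m → Fin C.size) (s : ℕ)
        (V : Fin m → Finset (Fin m)),
        (∀ i j i' j', ρ i j = ρ i' j' → i = i' ∧ j = j') →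
        (∀ i j i' j', sk i j = sk i' j' → i = i' ∧ j = j') →
        (∀ i k, C.fanOut (sk i k) = 0) →
        (∀ v, C.arity v + C.fanOut v ≤ wt v) → ∑ v, wt v ≤ 2 * c * (m * m) →
        (∀ β ∈ A, cumW time wt (T β) / W = β) →
        (∀ i a j, C.src i a = Sum.inr j → j ∉ E → time j < time i) →
        (∀ i a j, C.src i a = Sum.inr j → j ∉ E → Same time A T j i) →
        (midC C (MidK C time wt A T W Q) (KeepK C E time wt A T W Q)).SharingDepthLE ∅ h →
        Γ₀ * (E.card + s) ≤ m * m →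
        (∀ (I : Finset (Fin m)) (G : Fin m → Finset (Fin m)) (R : Finset (Fin C.size)), E ⊆ R →
          (∀ k : Fin m → Finset (Fin m), (∀ i ∈ I, k i ⊆ V i) → (∀ i ∈ I, ∀ k' ∈ k i,
            ¬ Reached C (I.biUnion fun i => (G i).image (ρ i)) R (sk i k')) →
            ∑ i ∈ I, min (G i).card (k i).card ≤ R.card + s)) →
        ∃ P : Fin m → Finset ℕ, (∀ i, P i ⊆ range b ∧ (P i).card ≤ r) ∧
          ∃ X : Finset (Fin m × Fin m), 8 * (D * X.card) ≤ m * m ∧ ∀ p, p.2 ∈ V p.1 → p ∉ X →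
            ¬ BigP time A T Q (sk p.1 p.2) ∧ ∃ j, Same time A T j (sk p.1 p.2) ∧
              cumL time wt (time j) / W₂ ∈ P p.1 := by
  classical
  have hDc : 1 ≤ D * c := Nat.mul_pos hD hc
  have hr1 : 1 ≤ r := by rw [hr, mul_assoc]; omega
  have hQD : 384 * D ≤ Q := by
    calc 384 * D ≤ (384 * D) * (8 * c) := Nat.le_mul_of_pos_right _ (by omega)
      _ = Q := by rw [hQ]; ring
  have hQ1 : 1 ≤ Q := by omega
  have hB1 : 1 ≤ B := by rw [hB]; exact Nat.one_le_two_pow
  have hKD : 1024 * D ≤ K₁ := by rw [hK]; exact Nat.le_mul_of_pos_right _ hB1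
  have hK1 : 1024 ≤ K₁ := by omega
  have hKB : 1024 * B ≤ K₁ := by
    calc 1024 * B ≤ (1024 * B) * D := Nat.le_mul_of_pos_right _ hD
      _ = K₁ := by rw [hK]; ring
  obtain ⟨e, he⟩ : ∃ e : ℕ, e = 64 * K₁ * B * (h + 1) := ⟨_, rfl⟩
  obtain ⟨Γ, hΓ⟩ : ∃ Γ : ℕ → ℕ, Γ = fun x => rΓ K₁ r h x := ⟨_, rfl⟩
  obtain ⟨Y, hY⟩ := mid_cost c e h (fun x => 16 * K₁ * c * Γ x)
  refine ⟨8 * K₁ * Γ Y + 1, Γ Y + 8 * K₁ + 4 * B + w₂ * (Q + 1) + 1, by omega, ?_⟩
  intro m n q hm hn W₂ W hW₂ hW C hwires E time wt A T ρ sk s V hρ hsk hsk0 hwt htotal hTW htime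
    hcut hsd hEs hconn
  obtain ⟨N, hN⟩ : ∃ N, N = m * m := ⟨_, rfl⟩
  have hm1 : 1 ≤ m := by omega
  have hmN : m ≤ N := by rw [hN]; exact Nat.le_mul_of_pos_left _ hm1
  rw [← hN] at hn hW₂ hwires htotal hEs
  have hNn : N ≤ n := by
    have h1 : (univ : Finset (Fin m × Fin m)).card ≤ (univ : Finset (Fin n)).card := by
      apply card_le_card_of_injOn (fun p => ρ p.1 p.2) (fun _ _ => mem_coe.2 (mem_univ _))
      intro p _ p' _ hp
      obtain ⟨h3, h4⟩ := hρ _ _ _ _ hp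
      exact Prod.ext h3 h4
    rw [card_univ, card_univ, Fintype.card_prod, Fintype.card_fin, Fintype.card_fin] at h1
    rw [hN]
    exact h1
  -- widths
  have hwQ : w₂ * (Q + 1) ≤ N := by omega
  have hw₂N : w₂ ≤ N := le_trans (Nat.le_mul_of_pos_right _ (by omega)) hwQ
  have hf1 : w₂ * W₂ ≤ N := by rw [hW₂]; exact Nat.mul_div_le _ _
  have hf2 : N ≤ 2 * w₂ * W₂ := by rw [hW₂]; exact half_up (by omega) hw₂N
  have hQW₂ : Q + 1 ≤ W₂ := by
    rw [hW₂, Nat.le_div_iff_mul_le (by omega)]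
    calc (Q + 1) * w₂ = w₂ * (Q + 1) := mul_comm _ _
      _ ≤ N := hwQ
  have hf3 : (Q + 1) * W ≤ W₂ := by rw [hW]; exact Nat.mul_div_le _ _
  have hW1 : 1 ≤ W := by
    rw [hW]
    exact (Nat.one_le_div_iff (by omega)).2 hQW₂
  have hf4 : W₂ ≤ 2 * (Q + 1) * W := by rw [hW]; exact half_up (by omega) hQW₂
  have hW₂1 : 1 ≤ W₂ := by omega
  have hcumM : ∀ τ, cumW time wt τ / W ≤ M₀ := by
    intro τ
    apply Nat.div_le_of_le_mul
    calc cumW time wt τ ≤ ∑ v, wt v := cumW_le_total _ _ _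
      _ ≤ 2 * c * N := htotal
      _ ≤ 2 * c * (2 * w₂ * (2 * (Q + 1) * W)) := by
          apply Nat.mul_le_mul_left
          exact hf2.trans (Nat.mul_le_mul_left _ hf4)
      _ = W * M₀ := by rw [hM₀]; ring
  have hγ : ∀ v, cumL time wt (time v) / W₂ < b := by
    intro v
    have h1 : cumL time wt (time v) / W₂ ≤ 4 * c * w₂ := by
      apply Nat.div_le_of_le_mul
      calc cumL time wt (time v) ≤ ∑ v, wt v := cumL_le_total _ _ _
        _ ≤ 2 * c * N := htotal
        _ ≤ 2 * c * (2 * w₂ * W₂) := Nat.mul_le_mul_left _ hf2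
        _ = W₂ * (4 * c * w₂) := by ring
    omega
  have hAM : ∀ β ∈ A, β ≤ M₀ := by
    intro β hβ
    rw [← hTW β hβ]
    exact hcumM _
  have hwires' : (midC C (MidK C time wt A T W Q) (KeepK C E time wt A T W Q)).numWires ≤
    c * n := le_trans hwires (Nat.mul_le_mul_left _ hNn)
  obtain ⟨x, y, Rc, cost, hx1, hxY, hΦ, hcost, hmid⟩ := hY n
    (midC C (MidK C time wt A T W Q) (KeepK C E time wt A T W Q)) hwires' hsd
  -- ends of big pieces
  have hends : ∀ X : ℕ, X ≤ (M₀ / Q + 1) * W → 192 * (D * X) ≤ N := by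
    intro X hX
    have h1 : Q * (M₀ / Q * W) ≤ 8 * c * N := by
      calc Q * (M₀ / Q * W) = (M₀ / Q * Q) * W := by ring
        _ ≤ M₀ * W := Nat.mul_le_mul_right _ (Nat.div_mul_le_self _ _)
        _ = 8 * c * (w₂ * ((Q + 1) * W)) := by rw [hM₀]; ring
        _ ≤ 8 * c * (w₂ * W₂) := by gcongr
        _ ≤ 8 * c * N := by gcongr
    have h2 : 384 * (D * (M₀ / Q * W)) ≤ N := by
      have h3 : (8 * c) * (384 * (D * (M₀ / Q * W))) ≤ (8 * c) * N := by
        obtain ⟨y, hy⟩ : ∃ y, y = M₀ / Q * W := ⟨_, rfl⟩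
        rw [← hy] at h1 ⊢
        calc (8 * c) * (384 * (D * y)) = Q * y := by rw [hQ]; ring
          _ ≤ 8 * c * N := h1
      exact Nat.le_of_mul_le_mul_left h3 (by omega)
    have h4 : 384 * (D * W) ≤ N := by
      calc 384 * (D * W) = (384 * D) * W := by ring
        _ ≤ (Q + 1) * W := Nat.mul_le_mul_right _ (by omega)
        _ ≤ W₂ := hf3
        _ ≤ w₂ * W₂ := Nat.le_mul_of_pos_left _ hw₂
        _ ≤ N := hf1
    have h6 : D * ((M₀ / Q + 1) * W) = D * (M₀ / Q * W) + D * W := by ring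
    have h7 : D * X ≤ D * ((M₀ / Q + 1) * W) := Nat.mul_le_mul_left _ hX
    omega
  have hlow := hends _ (lower_wt (time := time) (wt := wt) (A := A) (T := T) (W := W) (Q := Q)
    M₀ hW1 hQ1 hTW hAM)
  have hup := hends _ (upper_wt (time := time) (wt := wt) (A := A) (T := T) (W := W) (Q := Q)
    M₀ hW1 hQ1 hTW hAM)
  obtain ⟨Lc, hLc⟩ : ∃ Lc : Finset (Fin C.size), Lc = univ.filter fun v =>
    BigP time A T Q v ∧ Lower time wt A T W v := ⟨_, rfl⟩
  obtain ⟨Sm, hSm⟩ : ∃ Sm : Finset (Fin C.size), Sm = univ.filter fun v =>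
    ¬ BigP time A T Q v := ⟨_, rfl⟩
  have hLcN : 192 * (D * ∑ v ∈ Lc, C.arity v) ≤ m * m := by
    have h1 : D * ∑ v ∈ Lc, C.arity v ≤ D * ∑ v ∈ Lc, wt v :=
      Nat.mul_le_mul_left _ (sum_le_sum fun v _ => (Nat.le_add_right _ _).trans (hwt v))
    rw [hLc] at h1 ⊢
    rw [← hN]
    omega
  -- the rows
  obtain ⟨n₁, hn₁⟩ : ∃ n₁, n₁ = m / (2 * B) := ⟨_, rfl⟩
  have h2B : 2 * B ≤ m := by omega
  have hn₁1 : 1 ≤ n₁ := by rw [hn₁]; exact (Nat.one_le_div_iff (by omega)).2 h2B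
  have hn₁a : 2 * (2 ^ b * n₁) ≤ m := by
    rw [← hB]
    have := Nat.mul_div_le m (2 * B)
    rw [← hn₁] at this
    calc 2 * (B * n₁) = 2 * B * n₁ := by ring
      _ ≤ m := this
  have hn₁b : m ≤ 4 * B * n₁ := by
    have := half_up (N := m) (w := 2 * B) (by omega) h2B
    rw [← hn₁] at this
    calc m ≤ 2 * (2 * B) * n₁ := this
      _ = 4 * B * n₁ := by ring
  obtain ⟨Good, P, G₀, hGood, hP, hG₀card, hG₀⟩ := exists_rows' C D r b n₁ ρ hρ
    (fun v => cumL time wt (time v) / W₂) hγ Lc Sm hn₁1 hn₁a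
    (by
      rw [← hN]
      calc 128 * (D * C.numWires) ≤ 128 * (D * (c * N)) := by gcongr
        _ = r * N := by rw [hr]; ring
        _ ≤ (r + 1) * N := Nat.mul_le_mul_right _ (Nat.le_succ r)) hLcN
  -- the number of live inputs
  obtain ⟨Γx, hΓx⟩ : ∃ Γx, Γx = Γ x := ⟨_, rfl⟩
  have hΓx' : Γx = K₁ * (r + 1) * (2 * x) ^ h := by rw [hΓx, hΓ]; rfl
  have hΓY : Γx ≤ Γ Y := by rw [hΓx, hΓ]; exact rΓ_mono hxY
  have hpow1 : 1 ≤ (2 * x) ^ h := Nat.one_le_pow _ _ (by omega)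
  have hΓbig : K₁ ≤ Γx := by
    rw [hΓx', mul_assoc]
    exact Nat.le_mul_of_pos_right _ (Nat.mul_pos (Nat.succ_pos r) hpow1)
  have hΓx1 : 1 ≤ Γx := by omega
  have hΓm : Γx ≤ m := by omega
  obtain ⟨g₁, hg₁⟩ : ∃ g₁, g₁ = m / Γx := ⟨_, rfl⟩
  have hg₁a : Γx * g₁ ≤ m := by rw [hg₁]; exact Nat.mul_div_le _ _
  have hg₁b : m ≤ 2 * Γx * g₁ := by rw [hg₁]; exact half_up hΓx1 hΓm
  have hg₁1 : 1 ≤ g₁ := by rw [hg₁]; exact (Nat.one_le_div_iff (by omega)).2 hΓm
  have hg₁n : 2 * g₁ ≤ n₁ := by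
    have h1 : 4 * B * (2 * g₁) ≤ 4 * B * n₁ := by
      calc 4 * B * (2 * g₁) = (8 * B) * g₁ := by ring
        _ ≤ Γx * g₁ := Nat.mul_le_mul_right _ (by omega)
        _ ≤ m := hg₁a
        _ ≤ _ := hn₁b
    exact Nat.le_of_mul_le_mul_left h1 (by omega)
  obtain ⟨G, hG, hGcost⟩ := exists_balanced ρ hρ cost Good G₀ n₁ g₁ hG₀card hg₁n
  obtain ⟨Gt, hGt⟩ : ∃ Gt : Finset (Fin n), Gt = Good.biUnion fun i => (G i).image (ρ i) :=
    ⟨_, rfl⟩
  obtain ⟨ℓ, hℓ, hflow, hi, hRccard, hhi⟩ := hmid Gt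
  obtain ⟨wi, hwi⟩ : ∃ wi, wi = ∑ g ∈ Gt, cost g := ⟨_, rfl⟩
  rw [← hwi] at hRccard
  have hmg : m * g₁ ≤ N := by
    rw [hN]
    apply Nat.mul_le_mul_left
    exact le_trans (Nat.le_mul_of_pos_left _ hΓx1) hg₁a
  have hGtcard : Gt.card ≤ m * g₁ := by
    rw [hGt]
    refine card_biUnion_le.trans ?_
    calc ∑ i ∈ Good, ((G i).image (ρ i)).card ≤ ∑ _i ∈ Good, g₁ := by
          apply sum_le_sum
          intro i hi
          exact card_image_le.trans (hG i hi).2.le
      _ = Good.card * g₁ := by rw [sum_const, smul_eq_mul]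
      _ ≤ m * g₁ := by
          apply Nat.mul_le_mul_right
          have := card_le_univ Good
          rwa [Fintype.card_fin] at this
  have hGtfan : ∀ g ∈ Gt, inFan C g ≤ r := by
    intro g hg
    rw [hGt, mem_biUnion] at hg
    obtain ⟨i, hi, hg⟩ := hg
    obtain ⟨j, hj, rfl⟩ := mem_image.1 hg
    exact (hG₀ i hi j ((hG i hi).1 hj)).1
  -- the cut set
  let Rw : Finset (Fin C.size) := (Rc : Finset (Fin C.size)).filter fun v => ℓ v ≠ 0
  let R : Finset (Fin C.size) := ({C.out} ∪ E) ∪ Rw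
  have hER : E ⊆ R := fun x hx => mem_union_left _ (mem_union_right _ hx)
  have hRcR : ∀ v ∈ Rc, ℓ v ≠ 0 → v ∈ R := fun v hv h0 =>
    mem_union_right _ (mem_filter.2 ⟨hv, h0⟩)
  have hlive : ∀ i ∈ Good, ∀ v, Reached C ((G i).image (ρ i)) R v →
      LivePK C time wt A T W Q W₂ (P i) ℓ v := by
    intro i hi v hv
    refine reached_part htime hTW R hER hcut Gt ((G i).image (ρ i)) ?_ Rc ℓ hℓ hRcR W₂ (P i)
      ?_ ?_ v hv
    · rw [hGt]
      exact subset_biUnion_of_mem (fun i => (G i).image (ρ i)) hi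
    · intro v a g hs hg hbig hlow
      obtain ⟨j, hj, rfl⟩ := mem_image.1 hg
      exact (hG₀ i hi j ((hG i hi).1 hj)).2.1 v
        (by rw [hLc]; exact mem_filter.2 ⟨mem_univ _, hbig, hlow⟩) a hs
    · intro v a g hs hg hbig
      obtain ⟨j, hj, rfl⟩ := mem_image.1 hg
      exact (hG₀ i hi j ((hG i hi).1 hj)).2.2 v
        (by rw [hSm]; exact mem_filter.2 ⟨mem_univ _, hbig⟩) a hs
  -- the size of the cut set
  have hhis : 4 * K₁ * hi ≤ m * g₁ := by
    have h1 : (4 * c * Γx) * (4 * K₁ * hi) ≤ (4 * c * Γx) * (m * g₁) := by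
      calc (4 * c * Γx) * (4 * K₁ * hi) = (16 * K₁ * c * Γx) * hi := by ring
        _ = (16 * K₁ * c * Γ x) * hi := by rw [hΓx]
        _ ≤ y * hi := Nat.mul_le_mul_right _ hΦ
        _ ≤ c * n := hhi
        _ ≤ c * (2 * N) := Nat.mul_le_mul_left _ hn
        _ = 2 * c * m * m := by rw [hN]; ring
        _ ≤ 2 * c * m * (2 * Γx * g₁) := Nat.mul_le_mul_left _ hg₁b
        _ = (4 * c * Γx) * (m * g₁) := by ring
    exact Nat.le_of_mul_le_mul_left h1 (by positivity)
  have hwi' : wi ≤ ∑ i ∈ Good, ∑ j ∈ G i, cost (ρ i j) := by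
    rw [hwi, hGt]
    refine (sum_biUnion_le' _ _ _).trans ?_
    apply sum_le_sum
    intro i _
    apply le_of_eq
    apply sum_image
    intro j _ j' _ hj
    exact (hρ _ _ _ _ hj).2
  have hwis : 4 * K₁ * wi ≤ m * g₁ := by
    have h1 : (16 * B * (h + 1) * n₁) * (4 * K₁ * wi) ≤ (16 * B * (h + 1) * n₁) * (m * g₁) := by
      calc (16 * B * (h + 1) * n₁) * (4 * K₁ * wi)
          = (64 * K₁ * B * (h + 1)) * (n₁ * wi) := by ring
        _ ≤ (64 * K₁ * B * (h + 1)) * (n₁ * ∑ i ∈ Good, ∑ j ∈ G i, cost (ρ i j)) := by gcongr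
        _ ≤ (64 * K₁ * B * (h + 1)) * (2 * g₁ * ∑ g, cost g) := Nat.mul_le_mul_left _ hGcost
        _ = 2 * g₁ * (e * ∑ g, cost g) := by rw [he]; ring
        _ ≤ 2 * g₁ * (h * n) := Nat.mul_le_mul_left _ hcost
        _ ≤ 2 * g₁ * ((h + 1) * (2 * N)) := by gcongr; omega
        _ = 4 * g₁ * (h + 1) * m * m := by rw [hN]; ring
        _ ≤ 4 * g₁ * (h + 1) * m * (4 * B * n₁) := Nat.mul_le_mul_left _ hn₁b
        _ = (16 * B * (h + 1) * n₁) * (m * g₁) := by ring
    exact Nat.le_of_mul_le_mul_left h1 (by positivity)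
  have hEs' : 4 * K₁ * (E.card + s) ≤ m * g₁ := by
    have h1 : (2 * Γ Y) * (4 * K₁ * (E.card + s)) ≤ (2 * Γ Y) * (m * g₁) := by
      calc (2 * Γ Y) * (4 * K₁ * (E.card + s)) = (8 * K₁ * Γ Y) * (E.card + s) := by ring
        _ ≤ (8 * K₁ * Γ Y + 1) * (E.card + s) := Nat.mul_le_mul_right _ (Nat.le_succ _)
        _ ≤ N := hEs
        _ = m * m := hN
        _ ≤ m * (2 * Γx * g₁) := Nat.mul_le_mul_left _ hg₁b
        _ ≤ m * (2 * Γ Y * g₁) := by gcongr
        _ = (2 * Γ Y) * (m * g₁) := by ring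
    exact Nat.le_of_mul_le_mul_left h1 (by omega)
  have hRcard : K₁ * (R.card + s) ≤ m * g₁ := by
    have h1 : R.card ≤ 1 + E.card + (1 + hi + wi) := by
      refine (card_union_le _ _).trans (Nat.add_le_add ?_ hRccard)
      refine (card_union_le _ _).trans ?_
      rw [card_singleton]
    have h2 : 8 * K₁ ≤ m * g₁ := by
      calc 8 * K₁ ≤ m := by omega
        _ ≤ m * g₁ := Nat.le_mul_of_pos_right _ hg₁1
    have h3 : 4 * (K₁ * (R.card + s)) ≤ 4 * K₁ * (E.card + s) + 8 * K₁ + 4 * K₁ * hi +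
        4 * K₁ * wi := by
      calc 4 * (K₁ * (R.card + s)) ≤ 4 * (K₁ * (1 + E.card + (1 + hi + wi) + s)) := by gcongr
        _ = _ := by ring
    omega
  -- unreached outputs
  let cls : Fin m → Finset (Fin m) := fun i => Good.filter fun i' => P i' = P i
  let J : Fin m → Finset (Fin m) := fun i => (V i).filter fun k =>
    ¬ Reached C ((cls i).biUnion fun i => (G i).image (ρ i)) R (sk i k)
  let BigJ : Finset (Fin m) := Good.filter fun i => g₁ ≤ (J i).card
  have hBigJ : 1024 * (D * BigJ.card) ≤ m := by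
    have h1 : ∀ P₀ : Finset ℕ, K₁ * (BigJ.filter fun i => P i = P₀).card ≤ m := by
      intro P₀
      have h2 := hconn (Good.filter fun i => P i = P₀) G R hER
        (fun i => (V i).filter fun k => ¬ Reached C ((Good.filter fun i => P i = P₀).biUnion
          fun i => (G i).image (ρ i)) R (sk i k))
        (fun i _ => filter_subset _ _)
        (fun i _ k' hk' => (mem_filter.1 hk').2)
      have h3 : (BigJ.filter fun i => P i = P₀).card * g₁ ≤ R.card + s := by
        refine le_trans ?_ h2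
        calc (BigJ.filter fun i => P i = P₀).card * g₁
            = ∑ _i ∈ BigJ.filter (fun i => P i = P₀), g₁ := by rw [sum_const, smul_eq_mul]
          _ ≤ ∑ i ∈ BigJ.filter (fun i => P i = P₀), min (G i).card
              ((V i).filter fun k => ¬ Reached C ((Good.filter fun i => P i = P₀).biUnion
                fun i => (G i).image (ρ i)) R (sk i k)).card := by
              apply sum_le_sum
              intro i hi
              obtain ⟨hi1, hi2⟩ := mem_filter.1 hi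
              obtain ⟨hi3, hi4⟩ := mem_filter.1 hi1
              refine le_min (hG i hi3).2.ge ?_
              simp only [J, cls, hi2] at hi4
              exact hi4
          _ ≤ _ := by
              apply sum_le_sum_of_subset
              intro i hi
              obtain ⟨hi1, hi2⟩ := mem_filter.1 hi
              exact mem_filter.2 ⟨(mem_filter.1 hi1).1, hi2⟩
      have h4 : g₁ * (K₁ * (BigJ.filter fun i => P i = P₀).card) ≤ g₁ * m := by
        calc g₁ * (K₁ * (BigJ.filter fun i => P i = P₀).card)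
            = K₁ * ((BigJ.filter fun i => P i = P₀).card * g₁) := by ring
          _ ≤ K₁ * (R.card + s) := Nat.mul_le_mul_left _ h3
          _ ≤ m * g₁ := hRcard
          _ = g₁ * m := mul_comm _ _
      exact Nat.le_of_mul_le_mul_left h4 hg₁1
    have h2 : BigJ.card = ∑ P₀ ∈ (range b).powerset, (BigJ.filter fun i => P i = P₀).card :=
      card_eq_sum_card_fiberwise (fun i _ => mem_coe.2 (mem_powerset.2 (hP i).1))
    have h3 : K₁ * BigJ.card ≤ B * m := by
      calc K₁ * BigJ.card = ∑ P₀ ∈ (range b).powerset,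
            K₁ * (BigJ.filter fun i => P i = P₀).card := by
            rw [h2, mul_sum]
        _ ≤ ∑ _P₀ ∈ (range b).powerset, m := sum_le_sum fun P₀ _ => h1 P₀
        _ = B * m := by rw [sum_const, smul_eq_mul, card_powerset, card_range, hB]
    have h4 : B * (1024 * (D * BigJ.card)) ≤ B * m := by
      calc B * (1024 * (D * BigJ.card)) = K₁ * BigJ.card := by rw [hK]; ring
        _ ≤ B * m := h3
    exact Nat.le_of_mul_le_mul_left h4 hB1
  -- the exceptional pairs
  let X1 : Finset (Fin m × Fin m) := Goodᶜ ×ˢ univ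
  let X2 : Finset (Fin m × Fin m) := BigJ ×ˢ univ
  let X3 : Finset (Fin m × Fin m) := univ.filter fun p => p.1 ∈ Good ∧ p.1 ∉ BigJ ∧ p.2 ∈ J p.1
  let X4 : Finset (Fin m × Fin m) := univ.filter fun p => BigP time A T Q (sk p.1 p.2) ∧
    Upper time wt A T W (sk p.1 p.2) ∧ 1 ≤ wt (sk p.1 p.2)
  let X5 : Finset (Fin m × Fin m) := univ.filter fun p => ℓ (sk p.1 p.2) ≠ 0
  have hskinj : Function.Injective fun p : Fin m × Fin m => sk p.1 p.2 := by
    intro p p' hp
    obtain ⟨h3, h4⟩ := hsk _ _ _ _ hp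
    exact Prod.ext h3 h4
  have c1 : 32 * (D * X1.card) ≤ N := by
    have h1 : X1.card = Goodᶜ.card * m := by
      simp only [X1, card_product, card_univ, Fintype.card_fin]
    rw [h1, hN]
    calc 32 * (D * (Goodᶜ.card * m)) = (32 * (D * Goodᶜ.card)) * m := by ring
      _ ≤ m * m := Nat.mul_le_mul_right _ hGood
  have c2 : 1024 * (D * X2.card) ≤ N := by
    have h1 : X2.card = BigJ.card * m := by
      simp only [X2, card_product, card_univ, Fintype.card_fin]
    rw [h1, hN]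
    calc 1024 * (D * (BigJ.card * m)) = (1024 * (D * BigJ.card)) * m := by ring
      _ ≤ m * m := Nat.mul_le_mul_right _ hBigJ
  have c3 : 1024 * (D * X3.card) ≤ N := by
    have h1 : X3.card ≤ m * g₁ := by
      have h2 : X3 ⊆ univ.biUnion fun i : Fin m =>
          if i ∈ Good ∧ i ∉ BigJ then (J i).image (fun k => (i, k)) else ∅ := by
        intro p hp
        obtain ⟨_, hp1, hp2, hp3⟩ := mem_filter.1 hp
        rw [mem_biUnion]
        refine ⟨p.1, mem_univ _, ?_⟩
        rw [if_pos ⟨hp1, hp2⟩]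
        exact mem_image.2 ⟨p.2, hp3, rfl⟩
      refine (card_le_card h2).trans (card_biUnion_le.trans ?_)
      calc ∑ i : Fin m, (if i ∈ Good ∧ i ∉ BigJ then (J i).image (fun k => (i, k))
            else ∅ : Finset (Fin m × Fin m)).card ≤ ∑ _i : Fin m, g₁ := by
            apply sum_le_sum
            intro i _
            split_ifs with h3
            · refine card_image_le.trans ?_
              by_contra hcon
              exact h3.2 (mem_filter.2 ⟨h3.1, by omega⟩)
            · simp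
        _ = m * g₁ := by rw [sum_const, smul_eq_mul, card_univ, Fintype.card_fin]
    rw [hN]
    calc 1024 * (D * X3.card) ≤ 1024 * (D * (m * g₁)) := by gcongr
      _ = m * ((1024 * D) * g₁) := by ring
      _ ≤ m * (Γx * g₁) := by
          apply Nat.mul_le_mul_left
          exact Nat.mul_le_mul_right _ (hKD.trans hΓbig)
      _ ≤ m * m := Nat.mul_le_mul_left _ hg₁a
  have c4 : 192 * (D * X4.card) ≤ N := by
    have h1 : X4.card ≤ ∑ v ∈ univ.filter (fun v => BigP time A T Q v ∧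
        Upper time wt A T W v), wt v := by
      rw [← card_image_of_injective X4 hskinj]
      calc (X4.image fun p => sk p.1 p.2).card = ∑ _v ∈ X4.image (fun p => sk p.1 p.2), 1 := by
            simp
        _ ≤ ∑ v ∈ X4.image (fun p => sk p.1 p.2), wt v := by
            apply sum_le_sum
            intro v hv
            obtain ⟨p, hp, rfl⟩ := mem_image.1 hv
            exact (mem_filter.1 hp).2.2.2
        _ ≤ _ := by
            apply sum_le_sum_of_subset
            intro v hv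
            obtain ⟨p, hp, rfl⟩ := mem_image.1 hv
            exact mem_filter.2 ⟨mem_univ _, (mem_filter.1 hp).2.1, (mem_filter.1 hp).2.2.1⟩
    have h2 := Nat.mul_le_mul_left D h1
    omega
  have c5 : 512 * (D * X5.card) ≤ N := by
    have h1 := sink_flow _ Gt Rc ℓ hℓ
    have h2 : inWires (midC C (MidK C time wt A T W Q) (KeepK C E time wt A T W Q)) Gt ≤
        r * (m * g₁) := by
      rw [inWires_eq]
      calc ∑ g ∈ Gt, inFan (midC C (MidK C time wt A T W Q) (KeepK C E time wt A T W Q)) g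
          ≤ ∑ _g ∈ Gt, r := sum_le_sum fun g hg => (midC_inFan_le C _ _ g).trans (hGtfan g hg)
        _ = Gt.card * r := by rw [sum_const, smul_eq_mul]
        _ ≤ (m * g₁) * r := Nat.mul_le_mul_right _ hGtcard
        _ = _ := mul_comm _ _
    have h3 : X5.card ≤ ∑ v ∈ univ.filter (fun v =>
        (midC C (MidK C time wt A T W Q) (KeepK C E time wt A T W Q)).fanOut v = 0), ℓ v := by
      rw [← card_image_of_injective X5 hskinj]
      calc (X5.image fun p => sk p.1 p.2).card = ∑ _v ∈ X5.image (fun p => sk p.1 p.2), 1 := by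
            simp
        _ ≤ ∑ v ∈ X5.image (fun p => sk p.1 p.2), ℓ v := by
            apply sum_le_sum
            intro v hv
            obtain ⟨p, hp, rfl⟩ := mem_image.1 hv
            have := (mem_filter.1 hp).2
            omega
        _ ≤ _ := by
            apply sum_le_sum_of_subset
            intro v hv
            obtain ⟨p, hp, rfl⟩ := mem_image.1 hv
            refine mem_filter.2 ⟨mem_univ _, ?_⟩
            have h4 := midC_fanOut_le C (MidK C time wt A T W Q) (KeepK C E time wt A T W Q)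
              (sk p.1 p.2)
            rw [hsk0] at h4
            exact Nat.le_zero.1 h4
    have h4 : X5.card ≤ 2 * (r * (m * g₁) * (2 * x) ^ h) := by
      have h5 : r * (m * g₁) ≤ r * (m * g₁) * (2 * x) ^ h := Nat.le_mul_of_pos_right _ hpow1
      have h6 := hflow.trans (Nat.mul_le_mul_right ((2 * x) ^ h) h2)
      have h7 : X5.card ≤ r * (m * g₁) + r * (m * g₁) * (2 * x) ^ h :=
        h3.trans (h1.trans (Nat.add_le_add h2 h6))
      omega
    rw [hN]
    calc 512 * (D * X5.card) ≤ 512 * (D * (2 * (r * (m * g₁) * (2 * x) ^ h))) := by gcongr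
      _ = m * ((1024 * D * r * (2 * x) ^ h) * g₁) := by ring
      _ ≤ m * ((K₁ * (r + 1) * (2 * x) ^ h) * g₁) := by gcongr; omega
      _ = m * (Γx * g₁) := by rw [hΓx']
      _ ≤ m * m := Nat.mul_le_mul_left _ hg₁a
  refine ⟨P, hP, X1 ∪ X2 ∪ X3 ∪ X4 ∪ X5, ?_, ?_⟩
  · have h1 : (X1 ∪ X2 ∪ X3 ∪ X4 ∪ X5).card ≤ X1.card + X2.card + X3.card + X4.card + X5.card := by
      refine (card_union_le _ _).trans (Nat.add_le_add_right ?_ _)
      refine (card_union_le _ _).trans (Nat.add_le_add_right ?_ _)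
      refine (card_union_le _ _).trans (Nat.add_le_add_right ?_ _)
      exact card_union_le _ _
    have h2 : D * (X1 ∪ X2 ∪ X3 ∪ X4 ∪ X5).card ≤ D * X1.card + D * X2.card + D * X3.card +
        D * X4.card + D * X5.card := by
      calc D * (X1 ∪ X2 ∪ X3 ∪ X4 ∪ X5).card ≤
          D * (X1.card + X2.card + X3.card + X4.card + X5.card) := Nat.mul_le_mul_left _ h1
        _ = _ := by ring
    rw [← hN]
    omega
  · intro p hpV hp
    simp only [mem_union, not_or] at hp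
    obtain ⟨⟨⟨⟨hp1, hp2⟩, hp3⟩, hp4⟩, hp5⟩ := hp
    have hgood : p.1 ∈ Good := by
      by_contra hcon
      exact hp1 (mem_product.2 ⟨mem_compl.2 hcon, mem_univ _⟩)
    have hnb : p.1 ∉ BigJ := fun h => hp2 (mem_product.2 ⟨h, mem_univ _⟩)
    have hnJ : p.2 ∉ J p.1 := fun h => hp3 (mem_filter.2 ⟨mem_univ _, hgood, hnb, h⟩)
    have hre : Reached C ((cls p.1).biUnion fun i => (G i).image (ρ i)) R (sk p.1 p.2) := by
      by_contra hcon
      exact hnJ (mem_filter.2 ⟨hpV, hcon⟩)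
    obtain ⟨i', hi', hre'⟩ := reached_biUnion hre
    obtain ⟨hi'1, hi'2⟩ := mem_filter.1 hi'
    have har : 1 ≤ wt (sk p.1 p.2) := by
      refine le_trans ?_ ((Nat.le_add_right _ _).trans (hwt (sk p.1 p.2)))
      cases hre' with
      | input _ a g h hg => exact a.pos
      | gate _ a u h hu hr => exact a.pos
    rcases hlive i' hi'1 _ hre' with h1 | h1 | h1
    · exact absurd (mem_filter.2 ⟨mem_univ _, h1.1, h1.2, har⟩) hp4
    · rw [hi'2] at h1
      exact h1
    · exact absurd (show p ∈ X5 from mem_filter.2 ⟨mem_univ _, h1.2⟩) hp5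

end Pool.Agent.Y633.MF
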