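import Mathlib
import Pool.Agent.Y633.MM.Count
import Pool.Agent.Y633.MF.Side

/-! # The combinatorial theorem, for a fraction of the entries of a product of matrices -/

open Finset

set_option linter.unusedSectionVars false

namespace Pool.Agent.Y633.MF

open Pool.Agent.Y633.Dep Pool.Agent.Y633.Wire Pool.Agent.Y633.Gen Pool.Agent.Y633.GenK
open Pool.Agent.Y633.Lay Pool.Agent.Y633.MM

theorem mf_comb_aux (D c : ℕ) (d : ℕ → ℕ) (hD0 : 1 ≤ D) (hc : 1 ≤ c) : ∃ M m₀ : ℕ, 1 ≤ M ∧ ∀ m n q : ℕ,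
    m₀ ≤ m → n ≤ 2 * (m * m) → ∀ C : Circuit n q, C.numWires ≤ c * (m * m) →
    ∀ (E : Finset (Fin C.size)) (time : Fin C.size → ℕ) (κ : ℕ → ℕ)
      (ρ ρ' : Fin m → Fin m → Fin n) (sk : Fin m → Fin m → Fin C.size)
      (V : Finset (Fin m × Fin m)), m * m ≤ D * V.card →
      (∀ i j i' j', ρ i j = ρ i' j' → i = i' ∧ j = j') →
      (∀ i j i' j', ρ' i j = ρ' i' j' → i = i' ∧ j = j') →
      (∀ i j i' j', sk i j = sk i' j' → i = i' ∧ j = j') →
      (∀ i k, C.fanOut (sk i k) = 0) → (∀ i k, (i, k) ∈ V → 1 ≤ C.arity (sk i k)) → M * E.card ≤ m * m →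
      (∀ i a j, C.src i a = Sum.inr j → j ∉ E → time j < time i) →
      (∀ j, 1 ≤ j → j ≤ M → ∀ l : List (Fin C.size),
        l.IsChain (fun u v => ∃ a, C.src v a = Sum.inr u) → (∀ v ∈ l, v ∉ E) →
        d j < l.countP (fun v => 2 ≤ C.fanOut v) → ∃ u ∈ l, ∃ v ∈ l, ∃ τ, time u ≤ τ ∧
          τ < time v ∧ j * κ τ ≤ m * m) →
      (∀ (S : Finset ℕ) (I : Finset (Fin m)) (G : Fin m → Finset (Fin m))
        (R : Finset (Fin C.size)), E ⊆ R →
        ∀ k : Fin m → Finset (Fin m), (∀ i ∈ I, ∀ k' ∈ k i, (i, k') ∈ V) → (∀ i ∈ I, ∀ k' ∈ k i,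
          ¬ Reached (cutC C E time S) (I.biUnion fun i => (G i).image (ρ i)) R (sk i k')) →
          ∑ i ∈ I, min (G i).card (k i).card ≤ R.card + ∑ τ ∈ S, κ τ) →
      (∀ (S : Finset ℕ) (I : Finset (Fin m)) (G : Fin m → Finset (Fin m))
        (R : Finset (Fin C.size)), E ⊆ R →
        ∀ k : Fin m → Finset (Fin m), (∀ i ∈ I, ∀ k' ∈ k i, (k', i) ∈ V) → (∀ i ∈ I, ∀ k' ∈ k i,
          ¬ Reached (cutC C E time S) (I.biUnion fun i => (G i).image (ρ' i)) R (sk k' i)) →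
          ∑ i ∈ I, min (G i).card (k i).card ≤ R.card + ∑ τ ∈ S, κ τ) → False := by
  classical
  obtain ⟨r, hr⟩ : ∃ r, r = 128 * D * c := ⟨_, rfl⟩
  obtain ⟨t, ht⟩ : ∃ t, t = 12 * (r * D) := ⟨_, rfl⟩
  obtain ⟨w₂, hw₂⟩ : ∃ w₂, w₂ = 12 * (t * t) := ⟨_, rfl⟩
  obtain ⟨Q, hQ⟩ : ∃ Q, Q = 384 * 8 * D * c := ⟨_, rfl⟩
  obtain ⟨b, hb⟩ : ∃ b, b = 4 * c * w₂ + 1 := ⟨_, rfl⟩
  obtain ⟨M₀, hM₀⟩ : ∃ M₀, M₀ = 8 * c * w₂ * (Q + 1) := ⟨_, rfl⟩
  obtain ⟨B, hB⟩ : ∃ B, B = 2 ^ b := ⟨_, rfl⟩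
  obtain ⟨K₁, hK₁⟩ : ∃ K₁, K₁ = 1024 * D * B := ⟨_, rfl⟩
  have hDc : 1 ≤ D * c := Nat.mul_pos hD0 hc
  have hr1 : 1 ≤ r := by rw [hr, mul_assoc]; omega
  have hrD : 1 ≤ r * D := Nat.mul_pos hr1 hD0
  have ht1 : 1 ≤ t := by omega
  have htt : 1 ≤ t * t := Nat.mul_pos ht1 ht1
  have hw₂1 : 1 ≤ w₂ := by omega
  have hQ1 : 1 ≤ Q := by rw [hQ, mul_assoc]; omega
  choose Γ₀ NN hΓpos hside using fun h =>
    side' D c h r w₂ Q b M₀ B K₁ hD0 hc hr hw₂1 hQ hb hM₀ hB hK₁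
  obtain ⟨hh, hhh⟩ : ∃ hh : ℕ → ℕ, hh = fun Δ => d Δ + 1 := ⟨_, rfl⟩
  obtain ⟨Ψ, hΨ⟩ : ∃ Ψ : ℕ → ℕ, Ψ = fun Δ => Δ + 2 * (M₀ + 1) * Γ₀ (hh Δ) := ⟨_, rfl⟩
  obtain ⟨gD, hgD⟩ : ∃ gD : ℕ → ℕ, gD = fun k => Ψ^[k] 1 := ⟨_, rfl⟩
  have hgD0 : gD 0 = 1 := by rw [hgD]; rfl
  have hgDS : ∀ k, gD (k + 1) = Ψ (gD k) := by
    intro k; rw [hgD]; exact Function.iterate_succ_apply' Ψ k 1
  have hgDle : ∀ k, gD k ≤ gD (k + 1) := by
    intro k; rw [hgDS, hΨ]; exact Nat.le_add_right _ _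
  have hgDpos : ∀ k, 1 ≤ gD k := by
    intro k
    induction k with
    | zero => rw [hgD0]
    | succ k ih => exact ih.trans (hgDle k)
  obtain ⟨Z, hZ⟩ : ∃ Z, Z = ∑ k ∈ range (M₀ + 3),
    (gD k + 2 * Γ₀ (hh (gD k)) + NN (hh (gD k))) := ⟨_, rfl⟩
  have hZk : ∀ k ≤ M₀ + 2, gD k + 2 * Γ₀ (hh (gD k)) + NN (hh (gD k)) ≤ Z := by
    intro k hk
    rw [hZ]
    exact single_le_sum (f := fun k => gD k + 2 * Γ₀ (hh (gD k)) + NN (hh (gD k)))
      (fun _ _ => Nat.zero_le _) (mem_range.2 (by omega))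
  refine ⟨Z + 1, Z + 2 * w₂ * (Q + 1) + 24 * (r * D) + 16, by omega, ?_⟩
  intro m n q hm hn C hwires E time κ ρ ρ' sk V hV hρ hρ' hsk hsk0 hsk1 hE htime hpath hconn hconn'
  obtain ⟨N, hN⟩ : ∃ N, N = m * m := ⟨_, rfl⟩
  have hm1 : 1 ≤ m := by omega
  have hmN : m ≤ N := by rw [hN]; exact Nat.le_mul_of_pos_left _ hm1
  obtain ⟨W₂, hW₂⟩ : ∃ W₂, W₂ = m * m / w₂ := ⟨_, rfl⟩
  obtain ⟨W, hW⟩ : ∃ W, W = W₂ / (Q + 1) := ⟨_, rfl⟩
  have hwQ : w₂ * (Q + 1) ≤ N := by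
    have : 2 * w₂ * (Q + 1) = 2 * (w₂ * (Q + 1)) := by ring
    omega
  have hw₂N : w₂ ≤ N := le_trans (Nat.le_mul_of_pos_right _ (by omega)) hwQ
  have hW₂' : W₂ = N / w₂ := by rw [hN]; exact hW₂
  have hf1 : w₂ * W₂ ≤ N := by rw [hW₂']; exact Nat.mul_div_le _ _
  have hf2 : N ≤ 2 * w₂ * W₂ := by rw [hW₂']; exact half_up (by omega) hw₂N
  have hQW₂ : Q + 1 ≤ W₂ := by
    rw [hW₂', Nat.le_div_iff_mul_le (by omega)]
    calc (Q + 1) * w₂ = w₂ * (Q + 1) := mul_comm _ _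
      _ ≤ N := hwQ
  have hf3 : (Q + 1) * W ≤ W₂ := by rw [hW]; exact Nat.mul_div_le _ _
  have hW1 : 1 ≤ W := by
    rw [hW]
    exact (Nat.one_le_div_iff (by omega)).2 hQW₂
  have hf4 : W₂ ≤ 2 * (Q + 1) * W := by rw [hW]; exact half_up (by omega) hQW₂
  have htotal : ∑ v, wtC C v ≤ 2 * c * (m * m) := by
    refine (sum_wtC_le C).trans ?_
    calc 2 * C.numWires ≤ 2 * (c * (m * m)) := Nat.mul_le_mul_left _ hwires
      _ = 2 * c * (m * m) := by ring
  have hcumM : ∀ τ, cumW time (wtC C) τ / W ≤ M₀ := by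
    intro τ
    apply Nat.div_le_of_le_mul
    calc cumW time (wtC C) τ ≤ ∑ v, wtC C v := cumW_le_total _ _ _
      _ ≤ 2 * c * N := by rw [hN]; exact htotal
      _ ≤ 2 * c * (2 * w₂ * (2 * (Q + 1) * W)) := by
          apply Nat.mul_le_mul_left
          exact hf2.trans (Nat.mul_le_mul_left _ hf4)
      _ = W * M₀ := by rw [hM₀]; ring
  have hγ : ∀ v, cumL time (wtC C) (time v) / W₂ < b := by
    intro v
    have h1 : cumL time (wtC C) (time v) / W₂ ≤ 4 * c * w₂ := by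
      apply Nat.div_le_of_le_mul
      calc cumL time (wtC C) (time v) ≤ ∑ v, wtC C v := cumL_le_total _ _ _
        _ ≤ 2 * c * N := by rw [hN]; exact htotal
        _ ≤ 2 * c * (2 * w₂ * W₂) := Nat.mul_le_mul_left _ hf2
        _ = W₂ * (4 * c * w₂) := by ring
    omega
  -- scales
  let Ak : ℕ → Finset ℕ := fun k => (range (M₀ + 1)).filter fun β =>
    ∃ τ, gD k * κ τ ≤ m * m ∧ cumW time (wtC C) τ / W = β
  obtain ⟨k, hkM, hkA⟩ := exists_stationary Ak (M₀ + 1)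
    ((card_filter_le _ _).trans (by simp)) (by
      intro k β hβ
      obtain ⟨h1, τ, h2, h3⟩ := mem_filter.1 hβ
      refine mem_filter.2 ⟨h1, τ, le_trans ?_ h2, h3⟩
      exact Nat.mul_le_mul_right _ (hgDle k))
  obtain ⟨A, hA⟩ : ∃ A, A = Ak k := ⟨_, rfl⟩
  have hA' : A = Ak (k + 1) := by rw [hA, hkA]
  obtain ⟨Δ, hΔ⟩ : ∃ Δ, Δ = gD k := ⟨_, rfl⟩
  have hΔ1 : 1 ≤ Δ := by rw [hΔ]; exact hgDpos k
  have hexT : ∀ β, ∃ τ, β ∈ A → gD (k + 1) * κ τ ≤ m * m ∧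
      cumW time (wtC C) τ / W = β := by
    intro β
    by_cases hβ : β ∈ A
    · have h1 := hβ
      rw [hA'] at h1
      obtain ⟨_, τ, h2⟩ := mem_filter.1 h1
      exact ⟨τ, fun _ => h2⟩
    · exact ⟨0, fun h => absurd h hβ⟩
  choose T hT using hexT
  have hTW : ∀ β ∈ A, cumW time (wtC C) (T β) / W = β := fun β hβ => (hT β hβ).2
  have hthin : ∀ τ, Δ * κ τ ≤ m * m → cumW time (wtC C) τ / W ∈ A := by
    intro τ hτ
    rw [hA]
    refine mem_filter.2 ⟨mem_range.2 ?_, τ, by rw [← hΔ]; exact hτ, rfl⟩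
    have := hcumM τ
    omega
  have hDZ : Δ + 2 * Γ₀ (hh Δ) + NN (hh Δ) ≤ Z := by rw [hΔ]; exact hZk k (by omega)
  have hsd : (midC (cutC C E time (A.image T)) (MidK (cutC C E time (A.image T)) time (wtC C) A T W Q)
      (KeepK (cutC C E time (A.image T)) E time (wtC C) A T W Q)).SharingDepthLE ∅ (hh Δ) := by
    rw [hhh]
    refine GenK.midC_sharing (C := cutC C E time (A.image T)) (κ := κ) (m * m) Δ (d Δ) hTW
      hthin ?_
    intro l hl hlE hlc
    refine hpath Δ hΔ1 (by omega) l ?_ hlE (lt_of_lt_of_le hlc ?_)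
    · exact List.IsChain.imp (fun u v ⟨a, ha⟩ => ⟨a, ((midC_inr C _ _ v a u).1 ha).1⟩) hl
    · apply List.countP_mono_left
      intro x _ hx
      rw [decide_eq_true_eq] at hx ⊢
      exact hx.trans (midC_fanOut_le C _ _ x)
  have hsmall : Γ₀ (hh Δ) * (E.card + ∑ τ ∈ A.image T, κ τ) ≤ m * m := by
    have hEs : 2 * (Γ₀ (hh Δ) * E.card) ≤ m * m := by
      calc 2 * (Γ₀ (hh Δ) * E.card) = (2 * Γ₀ (hh Δ)) * E.card := by ring
        _ ≤ (Z + 1) * E.card := Nat.mul_le_mul_right _ (by omega)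
        _ ≤ m * m := hE
    have hcuts : 2 * (Γ₀ (hh Δ) * ∑ β ∈ A, κ (T β)) ≤ m * m := by
      have hAcard : A.card ≤ M₀ + 1 := by
        rw [hA]
        exact (card_filter_le _ _).trans (by simp)
      have e1 : ∀ β ∈ A, 2 * (M₀ + 1) * Γ₀ (hh Δ) * κ (T β) ≤ m * m := by
        intro β hβ
        have e2 := (hT β hβ).1
        rw [hgDS, hΨ, ← hΔ] at e2
        refine le_trans (Nat.mul_le_mul_right _ ?_) e2
        exact Nat.le_add_left _ _
      have e4 : (M₀ + 1) * (2 * (Γ₀ (hh Δ) * ∑ β ∈ A, κ (T β))) ≤ (M₀ + 1) * (m * m) := by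
        calc (M₀ + 1) * (2 * (Γ₀ (hh Δ) * ∑ β ∈ A, κ (T β)))
            = ∑ β ∈ A, 2 * (M₀ + 1) * Γ₀ (hh Δ) * κ (T β) := by
              rw [← mul_sum]; ring
          _ ≤ ∑ _β ∈ A, m * m := sum_le_sum e1
          _ = A.card * (m * m) := by rw [sum_const, smul_eq_mul]
          _ ≤ (M₀ + 1) * (m * m) := Nat.mul_le_mul_right _ hAcard
      exact Nat.le_of_mul_le_mul_left e4 (by omega)
    have himg : ∑ τ ∈ A.image T, κ τ ≤ ∑ β ∈ A, κ (T β) := by
      have : A.image T = A.biUnion fun β => {T β} := by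
        ext x; simp [eq_comm]
      rw [this]
      refine (sum_biUnion_le' _ _ _).trans (le_of_eq ?_)
      apply sum_congr rfl
      intro β _
      rw [sum_singleton]
    have e6 : 2 * (Γ₀ (hh Δ) * (E.card + ∑ τ ∈ A.image T, κ τ)) ≤
        2 * (Γ₀ (hh Δ) * E.card) + 2 * (Γ₀ (hh Δ) * ∑ β ∈ A, κ (T β)) := by
      calc 2 * (Γ₀ (hh Δ) * (E.card + ∑ τ ∈ A.image T, κ τ)) ≤
          2 * (Γ₀ (hh Δ) * (E.card + ∑ β ∈ A, κ (T β))) := by gcongr
        _ = _ := by ring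
    omega
  have hwt' : ∀ v, (cutC C E time (A.image T)).arity v +
      (cutC C E time (A.image T)).fanOut v ≤ wtC C v :=
    fun v => Nat.add_le_add_left (midC_fanOut_le C _ _ v) _
  have htime' : ∀ i a j, (cutC C E time (A.image T)).src i a = Sum.inr j → j ∉ E →
      time j < time i :=
    fun i a j hs hj => htime i a j ((midC_inr C _ _ i a j).1 hs).1 hj
  have hcut' : ∀ i a j, (cutC C E time (A.image T)).src i a = Sum.inr j → j ∉ E →
      Same time A T j i := by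
    intro i a j hs hj β hβ
    obtain ⟨hs1, hs2⟩ := (midC_inr C _ _ i a j).1 hs
    have hlt := htime i a j hs1 hj
    constructor
    · intro h; omega
    · intro h
      by_contra hcon
      push Not at hcon
      rcases hs2 with h2 | h2
      · exact hj h2
      · exact h2 (T β) (mem_image_of_mem T hβ) ⟨hcon, h⟩
  have hsk0' : ∀ i k, (cutC C E time (A.image T)).fanOut (sk i k) = 0 := by
    intro i k
    have h4 := midC_fanOut_le C (fun _ => True)
      (fun j i => j ∈ E ∨ ∀ τ ∈ A.image T, ¬ (time j ≤ τ ∧ τ < time i)) (sk i k)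
    rw [hsk0] at h4
    exact Nat.le_zero.1 h4
  obtain ⟨P, hP, X, hX, hXP⟩ := hside (hh Δ) m n 1 (by omega) hn W₂ W hW₂ hW
    (cutC C E time (A.image T)) hwires E time (wtC C) A T ρ sk (∑ τ ∈ A.image T, κ τ)
    (fun i => univ.filter fun k => (i, k) ∈ V) hρ hsk hsk0' hwt' htotal hTW htime' hcut' hsd hsmall
    (fun I G R hR k hkV hk => hconn (A.image T) I G R hR k
      (fun i hi k' hk' => (mem_filter.1 (hkV i hi hk')).2) hk)
  obtain ⟨P', hP', X', hX', hXP'⟩ := hside (hh Δ) m n 1 (by omega) hn W₂ W hW₂ hW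
    (cutC C E time (A.image T)) hwires E time (wtC C) A T ρ' (fun i k => sk k i)
    (∑ τ ∈ A.image T, κ τ) (fun i => univ.filter fun k => (k, i) ∈ V)
    hρ' (fun i j i' j' hij => (hsk _ _ _ _ hij).symm) (fun i k => hsk0' k i) hwt' htotal hTW
    htime' hcut' hsd hsmall (fun I G R hR k hkV hk => hconn' (A.image T) I G R hR k
      (fun i hi k' hk' => (mem_filter.1 (hkV i hi hk')).2) hk)
  -- the pairs which are good on both sides
  let H : Finset (Fin m × Fin m) := V.filter fun p => p ∉ X ∧ (p.2, p.1) ∉ X'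
  have hH : V.card ≤ H.card + X.card + X'.card := by
    have h1 : V ⊆ (H ∪ X) ∪ X'.image Prod.swap := by
      intro p hpV
      rw [mem_union, mem_union]
      by_cases h1 : p ∈ X
      · exact Or.inl (Or.inr h1)
      · by_cases h2 : (p.2, p.1) ∈ X'
        · exact Or.inr (mem_image.2 ⟨(p.2, p.1), h2, rfl⟩)
        · exact Or.inl (Or.inl (mem_filter.2 ⟨hpV, h1, h2⟩))
    have h2 := card_le_card h1
    refine h2.trans ((card_union_le _ _).trans ?_)
    exact Nat.add_le_add (card_union_le _ _) card_image_le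
  have hskinj : Function.Injective fun p : Fin m × Fin m => sk p.1 p.2 := by
    intro p p' hp
    obtain ⟨h3, h4⟩ := hsk _ _ _ _ hp
    exact Prod.ext h3 h4
  have hbound := two_sides (b := b) (U := 3 * W₂) (s := m / (2 * t) + 1) P P'
    (fun i => (hP i).2) (fun i => (hP' i).2) H
    (fun p => cumL time (wtC C) (time (sk p.1 p.2)) / W₂) (fun p => hγ _)
    (by
      intro p hp
      obtain ⟨hbig, j, hj, hjP⟩ := hXP p (mem_filter.2 ⟨mem_univ _, (mem_filter.1 hp).1⟩)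
        (mem_filter.1 hp).2.1
      have := near W₂ hW1 hf3 hTW hbig hj
      exact mem_filter.2 ⟨mem_univ _, _, hjP, this.2, this.1⟩)
    (by
      intro p hp
      obtain ⟨hbig, j, hj, hjP⟩ := hXP' (p.2, p.1)
        (mem_filter.2 ⟨mem_univ _, (mem_filter.1 hp).1⟩) (mem_filter.1 hp).2.2
      have := near W₂ hW1 hf3 hTW hbig hj
      exact mem_filter.2 ⟨mem_univ _, _, hjP, this.2, this.1⟩)
    (by
      intro w
      have h1 := small_wt (time := time) (wt := wtC C) (A := A) (T := T) (W := W) (Q := Q)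
        W₂ hW1 hf3 hTW {w}
      rw [card_singleton] at h1
      refine le_trans ?_ (h1.trans (by omega))
      rw [← card_image_of_injective _ hskinj]
      calc (((H.filter fun p => cumL time (wtC C) (time (sk p.1 p.2)) / W₂ = w)).image
            fun p => sk p.1 p.2).card = ∑ _v ∈ ((H.filter fun p =>
            cumL time (wtC C) (time (sk p.1 p.2)) / W₂ = w)).image
            (fun p => sk p.1 p.2), 1 := by simp
        _ ≤ ∑ v ∈ ((H.filter fun p =>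
            cumL time (wtC C) (time (sk p.1 p.2)) / W₂ = w)).image
            (fun p => sk p.1 p.2), wtC C v := by
            apply sum_le_sum
            intro v hv
            obtain ⟨p, hp, rfl⟩ := mem_image.1 hv
            exact le_trans (hsk1 p.1 p.2 (mem_filter.1 (mem_filter.1 hp).1).1)
              (Nat.le_add_right _ _)
        _ ≤ _ := by
            apply sum_le_sum_of_subset
            intro v hv
            obtain ⟨p, hp, rfl⟩ := mem_image.1 hv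
            obtain ⟨hp1, hp2⟩ := mem_filter.1 hp
            obtain ⟨hbig, _⟩ := hXP p (mem_filter.2 ⟨mem_univ _, (mem_filter.1 hp1).1⟩)
              (mem_filter.1 hp1).2.1
            exact mem_filter.2 ⟨mem_univ _, hbig, sk p.1 p.2, fun β _ => Iff.rfl,
              mem_singleton.2 hp2⟩)
    (by
      have h1 : (2 * t) * (2 * t) * (3 * W₂) ≤ m * m := by
        calc (2 * t) * (2 * t) * (3 * W₂) = w₂ * W₂ := by rw [hw₂]; ring
          _ ≤ N := hf1
          _ = m * m := hN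
      have h2 : m < 2 * t * (m / (2 * t) + 1) := Nat.lt_mul_div_succ m (by omega)
      have h3 : (2 * t) * (2 * t) * (3 * W₂) ≤ (2 * t) * (2 * t) *
          ((m / (2 * t) + 1) * (m / (2 * t) + 1)) := by
        calc (2 * t) * (2 * t) * (3 * W₂) ≤ m * m := h1
          _ ≤ (2 * t * (m / (2 * t) + 1)) * (2 * t * (m / (2 * t) + 1)) :=
              Nat.mul_le_mul h2.le h2.le
          _ = _ := by ring
      exact Nat.le_of_mul_le_mul_left h3 (by positivity))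
  have h8 : 8 * (D * (3 * r * m * (m / (2 * t) + 1))) ≤ 2 * (m * m) := by
    have h9 : 24 * (r * D) * (m / (2 * t)) ≤ m := by
      have : 2 * t = 24 * (r * D) := by omega
      rw [this]
      exact Nat.mul_div_le m (24 * (r * D))
    calc 8 * (D * (3 * r * m * (m / (2 * t) + 1))) =
          m * (24 * (r * D) * (m / (2 * t))) + m * (24 * (r * D)) := by ring
      _ ≤ m * m + m * m := Nat.add_le_add (Nat.mul_le_mul_left _ h9)
          (Nat.mul_le_mul_left _ (by omega))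
      _ = 2 * (m * m) := by ring
  have h10 : 1 ≤ m * m := Nat.mul_pos hm1 hm1
  have h11 : D * V.card ≤ D * H.card + D * X.card + D * X'.card := by
    calc D * V.card ≤ D * (H.card + X.card + X'.card) := Nat.mul_le_mul_left _ hH
      _ = _ := by ring
  have h12 := Nat.mul_le_mul_left D hbound
  omega

theorem mf_comb (D c : ℕ) (d : ℕ → ℕ) : ∃ M m₀ : ℕ, 1 ≤ M ∧ ∀ m n q : ℕ,
    m₀ ≤ m → n ≤ 2 * (m * m) → ∀ C : Circuit n q, C.numWires ≤ c * (m * m) →
    ∀ (E : Finset (Fin C.size)) (time : Fin C.size → ℕ) (κ : ℕ → ℕ)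
      (ρ ρ' : Fin m → Fin m → Fin n) (sk : Fin m → Fin m → Fin C.size)
      (V : Finset (Fin m × Fin m)), m * m ≤ D * V.card →
      (∀ i j i' j', ρ i j = ρ i' j' → i = i' ∧ j = j') →
      (∀ i j i' j', ρ' i j = ρ' i' j' → i = i' ∧ j = j') →
      (∀ i j i' j', sk i j = sk i' j' → i = i' ∧ j = j') →
      (∀ i k, C.fanOut (sk i k) = 0) → (∀ i k, (i, k) ∈ V → 1 ≤ C.arity (sk i k)) → M * E.card ≤ m * m →
      (∀ i a j, C.src i a = Sum.inr j → j ∉ E → time j < time i) →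
      (∀ j, 1 ≤ j → j ≤ M → ∀ l : List (Fin C.size),
        l.IsChain (fun u v => ∃ a, C.src v a = Sum.inr u) → (∀ v ∈ l, v ∉ E) →
        d j < l.countP (fun v => 2 ≤ C.fanOut v) → ∃ u ∈ l, ∃ v ∈ l, ∃ τ, time u ≤ τ ∧
          τ < time v ∧ j * κ τ ≤ m * m) →
      (∀ (S : Finset ℕ) (I : Finset (Fin m)) (G : Fin m → Finset (Fin m))
        (R : Finset (Fin C.size)), E ⊆ R →
        ∀ k : Fin m → Finset (Fin m), (∀ i ∈ I, ∀ k' ∈ k i, (i, k') ∈ V) → (∀ i ∈ I, ∀ k' ∈ k i,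
          ¬ Reached (cutC C E time S) (I.biUnion fun i => (G i).image (ρ i)) R (sk i k')) →
          ∑ i ∈ I, min (G i).card (k i).card ≤ R.card + ∑ τ ∈ S, κ τ) →
      (∀ (S : Finset ℕ) (I : Finset (Fin m)) (G : Fin m → Finset (Fin m))
        (R : Finset (Fin C.size)), E ⊆ R →
        ∀ k : Fin m → Finset (Fin m), (∀ i ∈ I, ∀ k' ∈ k i, (k', i) ∈ V) → (∀ i ∈ I, ∀ k' ∈ k i,
          ¬ Reached (cutC C E time S) (I.biUnion fun i => (G i).image (ρ' i)) R (sk k' i)) →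
          ∑ i ∈ I, min (G i).card (k i).card ≤ R.card + ∑ τ ∈ S, κ τ) → False := by
  obtain ⟨M, m₀, hM, h⟩ := mf_comb_aux (D + 1) (c + 1) d (by omega) (by omega)
  refine ⟨M, m₀, hM, ?_⟩
  intro m n q hm hn C hwires E time κ ρ ρ' sk V hV
  exact h m n q hm hn C (hwires.trans (Nat.mul_le_mul_right _ (Nat.le_succ c))) E time κ ρ ρ' sk V
    (hV.trans (Nat.mul_le_mul_right _ (Nat.le_succ D)))

end Pool.Agent.Y633.MF
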